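import Pool.Agent.MP_5d9b3c_ag.P3T.Defs

/-!
Transport of exact fields, filtrations, exponents, residues and frames.
-/

namespace Pool.Agent.MP_5d9b3c_ag.P3T

open Pool.Agent.MP_ee8c61_ag M3 M3RESID
open Pool.Agent.MP_96693b_ag.RS (Loc LocOf)

variable {L L' k k' : Type} [Field L] [Algebra ℂ L] [Field L'] [Algebra ℂ L']
  [Field k] [Algebra ℂ k] [Field k'] [Algebra ℂ k'] {n : ℕ}

namespace SI

variable (s : SI L L')

theorem e_ne {g : L} : s.e g ≠ 0 ↔ g ≠ 0 := map_ne_zero _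
theorem c_ne {a : ℂ} : s.c a ≠ 0 ↔ a ≠ 0 := map_ne_zero _
theorem e_inj {g h : L} : s.e g = s.e h ↔ g = h := s.e.injective.eq_iff
theorem c_inj {a b : ℂ} : s.c a = s.c b ↔ a = b := s.c.injective.eq_iff
theorem vf_inj' {v u : VF L} : s.vf v = s.vf u ↔ v = u := s.vf_inj.eq_iff
theorem allv {p : VF L' → Prop} : (∀ v, p v) ↔ ∀ v, p (s.vf v) := s.vf_surj.forall
theorem exv {p : VF L' → Prop} : (∃ v, p v) ↔ ∃ v, p (s.vf v) := s.vf_surj.exists
theorem allc {p : ℂ → Prop} : (∀ a, p a) ↔ ∀ a, p (s.c a) := s.c.surjective.forall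
theorem exc {p : ℂ → Prop} : (∃ a, p a) ↔ ∃ a, p (s.c a) := s.c.surjective.exists

theorem mem_range {g : L} :
    s.e g ∈ Set.range (algebraMap ℂ L') ↔ g ∈ Set.range (algebraMap ℂ L) := by
  simp only [Set.mem_range]
  rw [s.exc]
  simp only [← s.map, e_inj]

theorem sa_le {O O' : Subalgebra ℂ L} : s.sa O ≤ s.sa O' ↔ O ≤ O' :=
  ⟨fun h _ hg => s.e_mem_sa.1 (h (s.e_mem_sa.2 hg)), fun h _ hg => h hg⟩

theorem fi_le {O O' : IntermediateField ℂ L} : s.fi O ≤ s.fi O' ↔ O ≤ O' :=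
  ⟨fun h _ hg => s.e_mem_fi.1 (h (s.e_mem_fi.2 hg)), fun h _ hg => h hg⟩

theorem vs_le {O O' : ValuationSubring L} : s.vs O ≤ s.vs O' ↔ O ≤ O' :=
  ⟨fun h _ hg => s.e_mem_vs.1 (h (s.e_mem_vs.2 hg)), fun h _ hg => h hg⟩

@[simp] theorem fi_top : s.fi ⊤ = ⊤ := IntermediateField.ext fun _ => Iff.rfl
@[simp] theorem sa_top : s.sa ⊤ = ⊤ := Subalgebra.ext fun _ => Iff.rfl

theorem sa_adjoin (X : Set L) : s.sa (Algebra.adjoin ℂ X) = Algebra.adjoin ℂ (s.e '' X) := by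
  have key : ∀ {L L' : Type} [Field L] [Algebra ℂ L] [Field L'] [Algebra ℂ L'] (s : SI L L')
      (X : Set L), Algebra.adjoin ℂ (s.e '' X) ≤ s.sa (Algebra.adjoin ℂ X) := by
    intro L L' _ _ _ _ s X
    refine Algebra.adjoin_le ?_
    rintro _ ⟨g, hg, rfl⟩
    exact s.e_mem_sa.2 (Algebra.subset_adjoin hg)
  refine le_antisymm ?_ (key s X)
  have := key s.symm (s.e '' X)
  rw [Set.image_image] at this
  simp only [symm_e_e, Set.image_id'] at this
  simpa using s.sa_le.2 this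

theorem fi_adjoin (X : Set L) :
    s.fi (IntermediateField.adjoin ℂ X) = IntermediateField.adjoin ℂ (s.e '' X) := by
  have key : ∀ {L L' : Type} [Field L] [Algebra ℂ L] [Field L'] [Algebra ℂ L'] (s : SI L L')
      (X : Set L), IntermediateField.adjoin ℂ (s.e '' X) ≤
        s.fi (IntermediateField.adjoin ℂ X) := by
    intro L L' _ _ _ _ s X
    refine IntermediateField.adjoin_le_iff.2 ?_
    rintro _ ⟨g, hg, rfl⟩
    exact s.e_mem_fi.2 (IntermediateField.subset_adjoin _ _ hg)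
  refine le_antisymm ?_ (key s X)
  have := key s.symm (s.e '' X)
  rw [Set.image_image] at this
  simp only [symm_e_e, Set.image_id'] at this
  simpa using s.fi_le.2 this

theorem adjoin_top {X : Set L} :
    IntermediateField.adjoin ℂ (s.e '' X) = ⊤ ↔ IntermediateField.adjoin ℂ X = ⊤ := by
  rw [← fi_adjoin, ← s.fi_top, s.fi_inj.eq_iff]

theorem mem_closure {X : Set L} {g : L} :
    s.e g ∈ Subfield.closure (s.e '' X) ↔ g ∈ Subfield.closure X := by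
  have h : (Subfield.closure X).map s.e.toRingHom = Subfield.closure (s.e '' X) :=
    RingHom.map_field_closure _ _
  rw [← h, Subfield.mem_map]
  exact ⟨fun ⟨x, hx, h⟩ => s.e.injective h ▸ hx, fun h => ⟨g, h, rfl⟩⟩

theorem aeval_map (p : Polynomial ℂ) (g : L) :
    Polynomial.aeval (s.e g) (p.map s.c.toRingHom) = s.e (Polynomial.aeval g p) :=
  (Polynomial.map_aeval_eq_aeval_map (φ := s.c.toRingHom) (ψ := s.e.toRingHom)
    (RingHom.ext fun a => (s.map a).symm) p g).symm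

theorem isAlg {g : L} : IsAlgebraic ℂ (s.e g) ↔ IsAlgebraic ℂ g :=
  (isAlgebraic_ringHom_iff_of_comp_eq s.c s.e.toRingHom s.e.injective
    (RingHom.ext fun a => (s.map a).symm))

theorem transc {g : L} : Transcendental ℂ (s.e g) ↔ Transcendental ℂ g := s.isAlg.not

/-! ### Units and local rings -/

@[simp] theorem un {V : ValuationSubring L} {g : L} : Un (s.vs V) (s.e g) ↔ Un V g := by
  simp only [Un, e_ne, e_mem_vs, ← map_inv₀]

@[simp] theorem lc {A : Subalgebra ℂ L} {V : ValuationSubring L} {g : L} :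
    Lc (s.sa A) (s.vs V) (s.e g) ↔ Lc A V g := by
  unfold Lc
  rw [s.ex]
  simp only [e_mem_sa, un, ← map_mul]

theorem locOf {B : Subalgebra ℂ L} {x : Loc L} (h : LocOf B x) : LocOf (s.sa B) (s.loc x) where
  le := s.sa_le.2 h.le
  frac := s.all.2 fun f hf => by
    obtain ⟨p, hp, q, hq, h1, h2⟩ := h.frac f (s.e_mem_sa.1 hf)
    exact ⟨_, s.e_mem_sa.2 hp, _, s.e_mem_sa.2 hq, by rwa [loc_e, c_ne], by rw [← map_mul, h2]⟩

@[simp] theorem locOf_iff {B : Subalgebra ℂ L} {x : Loc L} :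
    LocOf (s.sa B) (s.loc x) ↔ LocOf B x :=
  ⟨fun h => by simpa using s.symm.locOf h, s.locOf⟩

/-! ### Volume forms -/

theorem dd_B (d : Dv L) (X Y : VF L) : (s.dd d).B (s.vf X) (s.vf Y) = s.vf (d.B X Y) := by
  simp only [Dv.B, dd_vf, vf_add, vf_sub, vf_smul, vf_lie]

theorem exa {d : Dv L} {v : VF L} (h : v ∈ d.Ex) : s.vf v ∈ (s.dd d).Ex := by
  induction h using AddSubgroup.closure_induction with
  | mem v hv =>
    obtain ⟨X, Y, rfl⟩ := hv
    exact AddSubgroup.subset_closure ⟨_, _, (s.dd_B d X Y).symm⟩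
  | zero => simp
  | add v u _ _ hv hu => exact s.vf_add v u ▸ add_mem hv hu
  | neg v _ hv => exact s.vf_neg v ▸ neg_mem hv

@[simp] theorem exa_iff {d : Dv L} {v : VF L} : s.vf v ∈ (s.dd d).Ex ↔ v ∈ d.Ex :=
  ⟨fun h => by simpa using s.symm.exa h, s.exa⟩

theorem dd_tw (d : Dv L) (g : L) (a : ℂ) : s.dd (d.tw g a) = (s.dd d).tw (s.e g) (s.c a) :=
  dd_ext (s.allv.2 fun v => by
    rw [dd_vf]
    simp only [Dv.tw, AddMonoidHom.add_apply, AddMonoidHom.mk'_apply, dd_vf, vf_e, map_add,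
      e_smul, map_div₀])

theorem co_dv (C : Co L n) : (s.co C).dv = s.dd C.dv :=
  dd_ext (s.allv.2 fun v => by
    rw [dd_vf]
    simp only [Co.dv, AddMonoidHom.mk'_apply, co_z, co_D, vf_e, map_sum])

theorem co_th (C : Co L n) (i : Fin n) : (s.co C).th i = s.vf (C.th i) := (s.vf_smul _ _).symm

theorem co_mon (C : Co L n) (c : Fin n → ℤ) : (s.co C).mon c = s.e (C.mon c) := by
  simp only [Co.mon, co_z, map_prod, map_zpow₀]

variable {C : Co L n} {O : Subalgebra ℂ L} {d : Dv L} {o : DV L}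

theorem st (h : C.St O) : (s.co C).St (s.sa O) where
  z i := s.e_mem_sa.2 (h.z i)
  D i := s.all.2 fun g hg => by
    rw [co_D, vf_e, e_mem_sa]
    exact h.D i g (s.e_mem_sa.1 hg)

@[simp] theorem st_iff : (s.co C).St (s.sa O) ↔ C.St O :=
  ⟨fun h => by simpa using s.symm.st h, s.st⟩

theorem ad_iff {a : Fin n → ℂ} :
    (s.co C).Ad (s.sa O) (s.dd d) (fun i => s.c (a i)) ↔ C.Ad O d a := by
  simp only [Co.Ad, co_th, dd_vf, co_z, ← s.map, ← map_sub, ← map_div₀, e_mem_sa]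

theorem ad {a a' : Fin n → ℂ} (h : C.Ad O d a) (ha : ∀ i, a' i = s.c (a i)) :
    (s.co C).Ad (s.sa O) (s.dd d) a' := by
  obtain rfl := funext ha
  exact s.ad_iff.2 h

@[simp] theorem coF {c : Fin n → ℤ} {v : VF L} : s.vf v ∈ (s.co C).F (s.sa O) c ↔ v ∈ C.F O c := by
  change (∀ i, _) ↔ ∀ i, _
  simp only [co_mon, co_z, vf_e, ← map_mul, ← map_div₀, e_mem_sa]

theorem mx {g : L} (h : C.Mx O g) : (s.co C).Mx (s.sa O) (s.e g) := by
  obtain ⟨h, h1, rfl⟩ := h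
  exact ⟨fun i => s.e (h i), fun i => s.e_mem_sa.2 (h1 i), by simp only [map_sum, map_mul, co_z]⟩

@[simp] theorem mx_iff {g : L} : (s.co C).Mx (s.sa O) (s.e g) ↔ C.Mx O g :=
  ⟨fun h => by simpa using s.symm.mx h, s.mx⟩

theorem lead_iff {c : Fin n → ℤ} {v : VF L} {t : Fin n → ℂ} :
    (s.co C).Lead (s.sa O) (s.dd d) c (s.vf v) (fun i => s.c (t i)) ↔ C.Lead O d c v t := by
  unfold Co.Lead
  rw [s.exv]
  simp only [exa_iff, ← vf_sub, coF, co_z, co_mon, vf_e, ← s.map, ← map_mul, ← map_div₀,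
    ← map_sub, mx_iff]

@[simp] theorem lv {c : ℤ} {v : VF L} : s.vf v ∈ LV (s.dv o) c ↔ v ∈ LV o c := by
  change (∀ m g, _) ↔ ∀ m g, _
  refine forall_congr' fun m => s.all.trans ?_
  simp only [vf_e, e_mem_F]

theorem adp {i : Fin n} (h : C.At o i) : (s.co C).At (s.dv o) i where
  cst := (s.dv o).cst_mem
  v j := by rw [co_z, dv_e, h.v]
  D j := s.all.2 fun g hg => by
    rw [co_D, vf_e, e_mem_F]
    exact h.D j g (s.e_mem_F.1 hg)

@[simp] theorem adp_iff {i : Fin n} : (s.co C).At (s.dv o) i ↔ C.At o i :=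
  ⟨fun h => by simpa using s.symm.adp h, s.adp⟩

theorem dat {i : Fin n} (h : C.Dat O o i) : (s.co C).Dat (s.sa O) (s.dv o) i where
  adp := s.adp h.adp
  le := s.all.2 fun g hg => s.e_mem_F.2 (h.le g (s.e_mem_sa.1 hg))
  div := s.all.2 fun g hg h1 => by
    rw [co_z, ← map_div₀, e_mem_sa]
    exact h.div g (s.e_mem_sa.1 hg) (s.e_mem_F.1 h1)

@[simp] theorem dat_iff {i : Fin n} : (s.co C).Dat (s.sa O) (s.dv o) i ↔ C.Dat O o i :=
  ⟨fun h => by simpa using s.symm.dat h, s.dat⟩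

theorem exp {a : ℂ} (h : Exp d o a) : Exp (s.dd d) (s.dv o) (s.c a) where
  reg := s.allv.2 fun v hv => by
    rw [dd_vf, e_mem_F]
    exact h.reg v (s.lv.1 hv)
  fin := s.allv.2 fun v => (h.fin v).imp fun _ => s.lv.2
  eul := by
    obtain ⟨θ, h1, h2⟩ := h.eul
    refine ⟨s.vf θ, fun m => s.all.2 fun g hg => ?_, ?_⟩
    · rw [vf_e, ← map_intCast s.e, ← map_mul, ← map_sub, e_mem_F]
      exact h1 m g (s.e_mem_F.1 hg)
    · rwa [dd_vf, ← s.map, ← map_sub, e_mem_F]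

@[simp] theorem exp_iff {a : ℂ} : Exp (s.dd d) (s.dv o) (s.c a) ↔ Exp d o a :=
  ⟨fun h => by simpa using s.symm.exp h, s.exp⟩

theorem ker_image (v : VF L) : s.e '' {c | v c = 0} = {c | s.vf v c = 0} :=
  Set.ext (s.all.2 fun g => by
    rw [s.e.injective.mem_set_image, Set.mem_ofPred_eq, Set.mem_ofPred_eq, vf_e, map_eq_zero s.e])

theorem star {e : Dv L} {v : VF L} {b : ℂ} {X : Set L} (h : STAR e v b X) :
    STAR (s.dd e) (s.vf v) (s.c b) (s.e '' X) := by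
  obtain ⟨v', y, g, h1, h2, h3, h4, h5, h6⟩ := h
  refine ⟨s.vf v', s.e y, g, h1, s.e_ne.2 h2, ?_, ?_, s.all.2 fun z => ?_, ?_⟩
  · rwa [← vf_sub, exa_iff]
  · rw [vf_e, ← map_ratCast s.e, ← map_mul, h4, map_mul, s.map]
  · rw [← ker_image, ← Set.image_singleton, ← Set.image_union, mem_closure]
    exact h5 z
  · rintro _ ⟨c, hc, rfl⟩
    rw [vf_e, h6 c hc, map_zero]

end SI

/-! ### Residues -/

namespace Cp

variable {s : SI L L'} {t : SI k k'} {P : Pl L k} {P' : Pl L' k'} (h : Cp s t P P')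
  {d : Dv L} {v : VF L} {w : VF k}

include h

theorem rs (hr : P.Rs v w) : P'.Rs (s.vf v) (t.vf w) :=
  ⟨h.o ▸ s.lv.2 hr.1, s.all.2 fun g hg => by
    have hg := h.mem.1 hg
    rw [s.vf_e, h.π _ (by simpa using hr.1 0 g hg), hr.2 g hg, h.π g hg, t.vf_e]⟩

theorem rs_iff : P'.Rs (s.vf v) (t.vf w) ↔ P.Rs v w :=
  ⟨fun hr => by simpa using h.symm.rs hr, h.rs⟩

theorem π_eq {g : L} {y : k} (hg : g ∈ P.o.F 0) : P'.π (s.e g) = t.e y ↔ P.π g = y := by
  rw [h.π g hg, t.e_inj]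

theorem res (hr : P.Res d v w) : P'.Res (s.dd d) (s.vf v) (t.vf w) := by
  obtain ⟨u, hu, hr⟩ := hr
  exact ⟨s.vf u, s.exa hu, s.vf_sub v u ▸ h.rs hr⟩

theorem res_iff : P'.Res (s.dd d) (s.vf v) (t.vf w) ↔ P.Res d v w :=
  ⟨fun hr => by simpa using h.symm.res hr, h.res⟩

theorem rx {x : L} {a : ℤ} (hr : P.Rx d x a v w) :
    P'.Rx (s.dd d) (s.e x) a (s.vf v) (t.vf w) := by
  obtain ⟨u, hu, hr⟩ := hr
  refine ⟨s.vf u, s.exa hu, ?_⟩
  rw [← s.vf_sub, ← map_zpow₀, ← s.vf_smul]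
  exact h.rs hr

theorem rx_iff {x : L} {a : ℤ} : P'.Rx (s.dd d) (s.e x) a (s.vf v) (t.vf w) ↔ P.Rx d x a v w :=
  ⟨fun hr => by simpa using h.symm.rx hr, h.rx⟩

/-- The residue of a volume form that is regular on logarithmic fields. -/
theorem rsD {e : Dv k} (hd : ∀ v ∈ LV P.o 0, d.δ v ∈ P.o.F 0) (hr : P.RsD d e) :
    P'.RsD (s.dd d) (t.dd e) :=
  s.allv.2 fun v => t.allv.2 fun w hv => by
    have hv := h.rs_iff.1 hv
    rw [s.dd_vf, t.dd_vf, h.π _ (hd v hv.1), hr v w hv]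

theorem rsC {C : Co L (n + 1)} {i : Fin (n + 1)} {C' : Co k n} (hz : ∀ j, C.z j ∈ P.o.F 0)
    (hr : P.RsC C i C') : P'.RsC (s.co C) i (t.co C') := fun j => by
  rw [t.co_z, s.co_z, h.π _ (hz _), hr j]

theorem rsO {O : Subalgebra ℂ L} {O' : Subalgebra ℂ k} (hO : ∀ g ∈ O, g ∈ P.o.F 0)
    (hr : P.RsO O O') : P'.RsO (s.sa O) (t.sa O') :=
  t.all.2 fun y => by
    rw [t.e_mem_sa, hr y, s.ex]
    refine exists_congr fun g => ?_
    rw [s.e_mem_sa]
    exact and_congr_right fun hg => (h.π_eq (hO g hg)).symm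

end Cp

/-- For the places of valuations the residue map commutes with the isomorphisms everywhere. -/
theorem Cp.π_pl {s : SI L L'} {o : DV L} {o' : DV L'} {t : SI o.kf o'.kf}
    (h : Cp s t o.pl o'.pl) (g : L) : o'.pl.π (s.e g) = t.e (o.pl.π g) := by
  by_cases hg : g ∈ o.F 0
  · exact h.π g hg
  · have h1 : o.pl.π g = 0 := dif_neg hg
    have h2 : o'.pl.π (s.e g) = 0 := dif_neg fun h' => hg (h.mem.1 h')
    rw [h1, h2, map_zero]

theorem Cp.rsD_pl {s : SI L L'} {o : DV L} {o' : DV L'} {t : SI o.kf o'.kf}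
    (h : Cp s t o.pl o'.pl) {d : Dv L} {e : Dv o.kf} (hr : o.pl.RsD d e) :
    o'.pl.RsD (s.dd d) (t.dd e) :=
  s.allv.2 fun v => t.allv.2 fun w hv => by
    rw [s.dd_vf, t.dd_vf, h.π_pl, hr v w (h.rs_iff.1 hv)]

theorem Cp.rsD_pl_iff {s : SI L L'} {o : DV L} {o' : DV L'} {t : SI o.kf o'.kf}
    (h : Cp s t o.pl o'.pl) {d : Dv L} {e : Dv o.kf} :
    o'.pl.RsD (s.dd d) (t.dd e) ↔ o.pl.RsD d e :=
  ⟨fun hr => by simpa using h.symm.rsD_pl hr, h.rsD_pl⟩

end Pool.Agent.MP_5d9b3c_ag.P3T
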