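import Pool.Agent.MP_5d9b3c_ag.P3T.Res
import Pool.Agent.MP_ee8c61_ag.M3.FDefs

/-!
Transport of the notions on fibred surfaces and of the surface data.
-/

namespace Pool.Agent.MP_5d9b3c_ag.P3T

open Pool.Agent.MP_ee8c61_ag M3 M3RESID M3F Set
open scoped IntermediateField

variable {L L' k k' : Type} [Field L] [Algebra ℂ L] [Field L'] [Algebra ℂ L']
  [Field k] [Algebra ℂ k] [Field k'] [Algebra ℂ k'] {n : ℕ}

namespace SI

variable (s : SI L L') {d : Dv L} {v : VF L} {o : DV L} {K₀ : IntermediateField ℂ L}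

theorem fi_cst (S : Set (VF L)) : s.fi (cst S) = cst (s.vf '' S) :=
  IntermediateField.ext (s.all.2 fun g => by
    simp only [e_mem_fi, mem_cst, forall_mem_image, vf_e, map_eq_zero s.e])

theorem fi_cst1 (v : VF L) : s.fi (cst {v}) = cst {s.vf v} := by rw [fi_cst, image_singleton]

theorem fi_Kz (t : L) : s.fi (Kz t) = Kz (s.e t) := by
  rw [Kz, Kz, fi_cst]
  refine congrArg cst (Set.ext (s.allv.2 fun v => ?_))
  rw [s.vf_inj.mem_set_image, mem_ofPred_eq, mem_ofPred_eq, vf_e, map_eq_zero s.e]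

theorem fi_coe (K : IntermediateField ℂ L) : (s.fi K : Set L') = s.e '' K :=
  Set.ext (s.all.2 fun _ => s.e_mem_fi.trans s.e.injective.mem_set_image.symm)

theorem mem_adj {K : IntermediateField ℂ L} {X : Set L} {g : L} :
    s.e g ∈ IntermediateField.adjoin (s.fi K) (s.e '' X) ↔ g ∈ IntermediateField.adjoin K X := by
  have key : ∀ {L : Type} [Field L] [Algebra ℂ L] (K : IntermediateField ℂ L) (X : Set L) (g : L),
      g ∈ IntermediateField.adjoin K X ↔ g ∈ Subfield.closure ((K : Set L) ∪ X) := by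
    intro L _ _ K X g
    rw [← IntermediateField.mem_toSubfield, IntermediateField.adjoin_toSubfield]
    have : range (algebraMap K L) = K := Subtype.range_coe
    rw [this]
  rw [key, key, fi_coe, ← image_union, mem_closure]

theorem adj_top {K : IntermediateField ℂ L} {X : Set L} :
    IntermediateField.adjoin (s.fi K) (s.e '' X) = ⊤ ↔ IntermediateField.adjoin K X = ⊤ := by
  simp only [eq_top_iff]
  exact ⟨fun h g _ => s.mem_adj.1 (h trivial), fun h => s.all.2 fun g _ => s.mem_adj.2 (h trivial)⟩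

theorem adj_top1 {K : IntermediateField ℂ L} {y : L} : (s.fi K)⟮s.e y⟯ = ⊤ ↔ K⟮y⟯ = ⊤ := by
  rw [← s.adj_top, image_singleton]

theorem starS {b : ℂ} (h : StarS d v b K₀) : StarS (s.dd d) (s.vf v) (s.c b) (s.fi K₀) := by
  obtain ⟨v', y, g, h1, h2, h3, h4, h5, h6⟩ := h
  refine ⟨s.vf v', s.e y, g, h1, s.e_ne.2 h2, ?_, ?_, ?_, ?_⟩
  · rwa [← vf_sub, exa_iff]
  · rw [vf_e, ← map_ratCast s.e, ← map_mul, h4, map_mul, s.map]
  · rwa [← fi_cst1, fi_le]
  · rwa [← fi_cst1, adj_top1]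

@[simp] theorem hor : Hor (s.fi K₀) (s.dv o) ↔ Hor K₀ o :=
  and_congr (s.ex.trans (by simp only [dv_e])) (s.all.trans (by simp only [e_mem_fi, e_mem_F]))

@[simp] theorem good : Good (s.dd d) (s.vf v) (s.dv o) ↔ Good d v o :=
  s.exv.trans (exists_congr fun _ => and_congr s.exa_iff
    (s.all.trans (by simp only [← vf_sub, vf_e, e_mem_F])))

@[simp] theorem cap {a : ℤ} : Cap (s.dd d) (s.vf v) (s.dv o) a ↔ Cap d v o a :=
  s.exv.trans (by simp only [exa_iff, ← vf_sub, lv, Cap])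

@[simp] theorem hon {a : ℚ} : Hon (s.dd d) (s.vf v) (s.dv o) a ↔ Hon d v o a := by
  simp only [Hon, good]

@[simp] theorem exp_rat {a : ℚ} : Exp (s.dd d) (s.dv o) a ↔ Exp d o a := by
  rw [← s.exp_iff (a := a), map_ratCast]

@[simp] theorem exp_int {a : ℤ} : Exp (s.dd d) (s.dv o) a ↔ Exp d o a := by
  rw [← s.exp_iff (a := a), map_intCast]

theorem rul {C : Co L 2} (h : Rul C K₀) : Rul (s.co C) (s.fi K₀) where
  gen := s.adj_top1.2 h.gen
  mem := s.e_mem_fi.2 h.mem
  kill := s.all.2 fun g hg => by rw [co_D, vf_e, h.kill g (s.e_mem_fi.1 hg), map_zero]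

/-- The isomorphism of a subfield with its image. -/
def fiEq (K : IntermediateField ℂ L) : K ≃+* s.fi K := s.saEq K.toSubalgebra

theorem fiEq_comp (K : IntermediateField ℂ L) :
    (algebraMap (s.fi K) L').comp (s.fiEq K).toRingHom = s.e.toRingHom.comp (algebraMap K L) :=
  rfl

theorem findim {K : IntermediateField ℂ L} (h : FiniteDimensional K L) :
    FiniteDimensional (s.fi K) L' :=
  Module.Finite.of_equiv_equiv (s.fiEq K) s.e (s.fiEq_comp K)

theorem finrank_fi (K : IntermediateField ℂ L) : Module.finrank (s.fi K) L' = Module.finrank K L :=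
  (Algebra.finrank_eq_of_equiv_equiv (s.fiEq K) s.e (s.fiEq_comp K)).symm

theorem range_co (C : Co L n) : range (s.co C).z = s.e '' range C.z := range_comp s.e C.z

theorem srf {C : Co L 2} {b : ℂ} (h : Srf C d v b) : Srf (s.co C) (s.dd d) (s.vf v) (s.c b) where
  fin := by
    rw [range_co, ← fi_adjoin]
    exact s.findim h.fin
  rat := by
    obtain ⟨q, ψ, h1, h2, h3⟩ := h.rat
    refine ⟨q, s.e ψ, h1, s.e_ne.2 h2, s.allv.2 fun X => ?_⟩
    rw [co_dv, dd_vf, dd_vf, h3, vf_e, map_add, map_div₀, map_mul, map_natCast]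
  ne := s.c_ne.2 h.ne
  prim := by rw [dd_vf, h.prim, s.map]

@[simp] theorem nc {g : L} : NC (s.dv o) (s.e g) ↔ NC o g :=
  and_congr s.e_mem_F (s.allc.trans (by simp only [← s.map, ← map_sub, e_mem_F]))

theorem cv {x : Fin 3 → L} : Cv (fun l => s.e (x l)) (s.dv o) ↔ Cv x o :=
  ⟨fun h => ⟨(s.ex.1 h.sur).imp fun g hg => (s.dv_e o g).symm.trans hg,
      fun l => s.e_mem_F.1 (h.bas l), (s.ex.1 h.nc).imp fun _ => s.nc.1⟩,
    fun h => ⟨s.ex.2 (h.sur.imp fun g hg => (s.dv_e o g).trans hg),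
      fun l => s.e_mem_F.2 (h.bas l), s.ex.2 (h.nc.imp fun _ => s.nc.2)⟩⟩

section Fam

variable {S : Finset L} {S' : Finset L'} (hS : ∀ g, s.e g ∈ S' ↔ g ∈ S)

include hS

theorem gnS {g : L} : GnS S' (s.dv o) (s.e g) ↔ GnS S o g :=
  and_congr (hS g) (and_congr s.e_ne (s.all.trans (by simp only [hS, ← map_div₀, e_mem_F])))

theorem dg {a : ℚ} : Dg S' (s.dv o) a ↔ Dg S o a :=
  s.ex.trans (by simp only [s.gnS hS, dv_e, Dg])

theorem null {x : Fin 3 → L} : Null (fun l => s.e (x l)) S' (s.dv o) ↔ Null x S o :=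
  and_congr (by simp only [nc]) (s.all.trans (forall_congr' fun _ => imp_congr (s.gnS hS)
    (s.all.trans (by simp only [hS, ← map_div₀, nc]))))

theorem fi_RF (x : Fin 3 → L) : s.fi (RF x S) = RF (fun l => s.e (x l)) S' := by
  rw [RF, RF, fi_adjoin, image_union, ← range_comp]
  have : s.e '' {g | ∃ a ∈ S, ∃ b ∈ S, g = b / a} = {g | ∃ a ∈ S', ∃ b ∈ S', g = b / a} := by
    refine Set.ext (s.all.2 fun g => ?_)
    rw [s.e.injective.mem_set_image, mem_ofPred_eq, mem_ofPred_eq, s.ex]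
    refine exists_congr fun a => and_congr (hS a).symm (Iff.symm (s.ex.trans ?_))
    simp only [hS, ← map_div₀, e_inj]
  rw [this]
  rfl

end Fam

theorem mem_map (S : Finset L) (g : L) : s.e g ∈ S.map s.e.toEquiv.toEmbedding ↔ g ∈ S :=
  Finset.mem_map' s.e.toEquiv.toEmbedding

theorem mem_image [DecidableEq L'] (S : Finset L) (g : L) : s.e g ∈ S.image s.e ↔ g ∈ S :=
  s.e.injective.mem_finset_image

end SI

theorem Cp.vs_lift {s : SI L L'} {t : SI k k'} {P : Pl L k} {P' : Pl L' k'} (h : Cp s t P P')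
    (Γ : DV k) : s.vs (lift P Γ) = lift P' (t.dv Γ) :=
  ValuationSubring.ext _ _ (s.all.2 fun g => by
    rw [s.e_mem_vs, mem_lift, mem_lift, h.mem]
    exact and_congr_right fun hg => by rw [h.π g hg, t.e_mem_F])

end Pool.Agent.MP_5d9b3c_ag.P3T
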