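import Pool.Agent.MP_ee8c61_ag.M3.Defs

/-!
Semilinear isomorphisms of function fields and the push-forward of valuations, rings, points,
vector fields, volume forms and coordinates.
-/

namespace Pool.Agent.MP_5d9b3c_ag.P3T

open Pool.Agent.MP_ee8c61_ag M3 M3RESID
open Pool.Agent.MP_96693b_ag.RS (Loc LocOf)

noncomputable section

/-- An isomorphism of fields over an automorphism of the constants. -/
structure SI (L L' : Type) [Field L] [Algebra ℂ L] [Field L'] [Algebra ℂ L'] where
  c : ℂ ≃+* ℂ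
  e : L ≃+* L'
  map : ∀ a, e (algebraMap ℂ L a) = algebraMap ℂ L' (c a)

variable {L L' L'' k k' k'' : Type} [Field L] [Algebra ℂ L] [Field L'] [Algebra ℂ L']
  [Field L''] [Algebra ℂ L''] [Field k] [Algebra ℂ k] [Field k'] [Algebra ℂ k']
  [Field k''] [Algebra ℂ k''] {n : ℕ}

omit [Algebra ℂ L] in
theorem dv_ext {o o' : DV L} (h : ∀ g, o.v g = o'.v g) : o = o' := by
  obtain ⟨v, _, _, _⟩ := o
  obtain ⟨v', _, _, _⟩ := o'
  obtain rfl : v = v' := funext h
  rfl

theorem loc_ext {x x' : Loc L} (h : x.O = x'.O) (h' : ∀ g, x.ev g = x'.ev g) : x = x' := by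
  obtain ⟨O, v, _, _, _, _, _, _⟩ := x
  obtain ⟨O', v', _, _, _, _, _, _⟩ := x'
  obtain rfl : v = v' := funext h'
  obtain rfl : O = O' := h
  rfl

theorem dd_ext {d d' : Dv L} (h : ∀ v, d.δ v = d'.δ v) : d = d' := by
  obtain ⟨δ, _, _⟩ := d
  obtain ⟨δ', _, _⟩ := d'
  obtain rfl : δ = δ' := AddMonoidHom.ext h
  rfl

theorem co_ext {C C' : Co L n} (h : ∀ i, C.z i = C'.z i) (h' : ∀ i, C.D i = C'.D i) : C = C' := by
  obtain ⟨z, D, _, _, _⟩ := C
  obtain ⟨z', D', _, _, _⟩ := C'
  obtain rfl : z = z' := funext h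
  obtain rfl : D = D' := funext h'
  rfl

namespace SI

theorem ext' {s t : SI L L'} (h : ∀ g, s.e g = t.e g) : s = t := by
  obtain ⟨c, e, hm⟩ := s
  obtain ⟨c', e', hm'⟩ := t
  obtain rfl : e = e' := RingEquiv.ext h
  obtain rfl : c = c' :=
    RingEquiv.ext fun a => (algebraMap ℂ L').injective ((hm a).symm.trans (hm' a))
  rfl

/-- The identity. -/
def refl (L : Type) [Field L] [Algebra ℂ L] : SI L L :=
  ⟨RingEquiv.refl ℂ, RingEquiv.refl L, fun _ => rfl⟩

variable (s : SI L L') (t : SI L' L'')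

/-- The inverse. -/
def symm : SI L' L where
  c := s.c.symm
  e := s.e.symm
  map a := by rw [RingEquiv.symm_apply_eq, s.map, RingEquiv.apply_symm_apply]

/-- The composite, `t` after `s`. -/
def trans : SI L L'' where
  c := s.c.trans t.c
  e := s.e.trans t.e
  map a := by rw [RingEquiv.trans_apply, s.map, t.map, RingEquiv.trans_apply]

/-- A linear isomorphism. -/
def ofAlg (τ : L ≃ₐ[ℂ] L') : SI L L' := ⟨RingEquiv.refl ℂ, τ.toRingEquiv, τ.commutes⟩

@[simp] theorem refl_e (g : L) : (refl L).e g = g := rfl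
@[simp] theorem refl_c (a : ℂ) : (refl L).c a = a := rfl
@[simp] theorem trans_e (g : L) : (s.trans t).e g = t.e (s.e g) := rfl
@[simp] theorem trans_c (a : ℂ) : (s.trans t).c a = t.c (s.c a) := rfl
@[simp] theorem ofAlg_e (τ : L ≃ₐ[ℂ] L') (g : L) : (ofAlg τ).e g = τ g := rfl
@[simp] theorem ofAlg_c (τ : L ≃ₐ[ℂ] L') (a : ℂ) : (ofAlg τ).c a = a := rfl
theorem symm_e : s.symm.e = s.e.symm := rfl
theorem symm_c : s.symm.c = s.c.symm := rfl
@[simp] theorem symm_symm : s.symm.symm = s := rfl
@[simp] theorem symm_e_e (g : L) : s.symm.e (s.e g) = g := s.e.symm_apply_apply g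
@[simp] theorem e_symm_e (g : L') : s.e (s.symm.e g) = g := s.e.apply_symm_apply g
@[simp] theorem symm_c_c (a : ℂ) : s.symm.c (s.c a) = a := s.c.symm_apply_apply a
@[simp] theorem c_symm_c (a : ℂ) : s.c (s.symm.c a) = a := s.c.apply_symm_apply a
@[simp] theorem trans_symm : s.trans s.symm = refl L := ext' s.symm_e_e
@[simp] theorem symm_trans : s.symm.trans s = refl L' := ext' s.e_symm_e
@[simp] theorem refl_trans : (refl L).trans s = s := rfl
@[simp] theorem trans_refl : s.trans (refl L') = s := rfl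
@[simp] theorem refl_symm : (refl L).symm = refl L := rfl
theorem symm_trans' : (s.trans t).symm = t.symm.trans s.symm := rfl

theorem e_smul (a : ℂ) (g : L) : s.e (a • g) = s.c a • s.e g := by
  rw [Algebra.smul_def, Algebra.smul_def, map_mul, s.map]

theorem surj (g : L') : ∃ h, s.e h = g := s.e.surjective g

theorem all {p : L' → Prop} : (∀ g, p g) ↔ ∀ g, p (s.e g) := s.e.surjective.forall

theorem ex {p : L' → Prop} : (∃ g, p g) ↔ ∃ g, p (s.e g) := s.e.surjective.exists

/-! ### Valuations, rings and points -/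

/-- The push-forward of a valuation. -/
def dv (o : DV L) : DV L' where
  v g := o.v (s.symm.e g)
  zero := by rw [map_zero, o.zero]
  mul g h hg hh := by
    rw [map_mul, o.mul _ _ ((map_ne_zero _).2 hg) ((map_ne_zero _).2 hh)]
  add g h hg hh h' := by
    rw [map_add]
    exact o.add _ _ ((map_ne_zero _).2 hg) ((map_ne_zero _).2 hh)
      (by rw [← map_add]; exact (map_ne_zero _).2 h')

/-- The image of a subalgebra. -/
def sa (O : Subalgebra ℂ L) : Subalgebra ℂ L' where
  carrier := {g | s.symm.e g ∈ O}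
  mul_mem' := fun {a b} ha hb => by
    change s.symm.e (a * b) ∈ O
    rw [map_mul]
    exact mul_mem ha hb
  add_mem' := fun {a b} ha hb => by
    change s.symm.e (a + b) ∈ O
    rw [map_add]
    exact add_mem ha hb
  algebraMap_mem' a := by
    change s.symm.e (algebraMap ℂ L' a) ∈ O
    rw [s.symm.map]
    exact O.algebraMap_mem _

/-- The image of a subfield. -/
def fi (K : IntermediateField ℂ L) : IntermediateField ℂ L' :=
  (s.sa K.toSubalgebra).toIntermediateField fun g hg => by
    change s.symm.e g⁻¹ ∈ K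
    rw [map_inv₀]
    exact inv_mem (show s.symm.e g ∈ K from hg)

/-- The image of a valuation ring. -/
def vs (V : ValuationSubring L) : ValuationSubring L' := V.comap s.symm.e.toRingHom

theorem dv_v (o : DV L) (g : L') : (s.dv o).v g = o.v (s.symm.e g) := rfl
theorem mem_sa {O : Subalgebra ℂ L} {g : L'} : g ∈ s.sa O ↔ s.symm.e g ∈ O := Iff.rfl
theorem mem_fi {K : IntermediateField ℂ L} {g : L'} : g ∈ s.fi K ↔ s.symm.e g ∈ K := Iff.rfl
theorem mem_vs {V : ValuationSubring L} {g : L'} : g ∈ s.vs V ↔ s.symm.e g ∈ V := Iff.rfl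

theorem mem_F {o : DV L} {m : ℤ} {g : L'} : g ∈ (s.dv o).F m ↔ s.symm.e g ∈ o.F m := by
  rw [DV.mem_F, DV.mem_F, dv_v, map_eq_zero]

@[simp] theorem dv_e (o : DV L) (g : L) : (s.dv o).v (s.e g) = o.v g := by rw [dv_v, symm_e_e]

@[simp] theorem e_mem_sa {O : Subalgebra ℂ L} {g : L} : s.e g ∈ s.sa O ↔ g ∈ O := by
  rw [mem_sa, symm_e_e]

@[simp] theorem e_mem_fi {K : IntermediateField ℂ L} {g : L} : s.e g ∈ s.fi K ↔ g ∈ K := by
  rw [mem_fi, symm_e_e]

@[simp] theorem e_mem_vs {V : ValuationSubring L} {g : L} : s.e g ∈ s.vs V ↔ g ∈ V := by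
  rw [mem_vs, symm_e_e]

@[simp] theorem e_mem_F {o : DV L} {m : ℤ} {g : L} : s.e g ∈ (s.dv o).F m ↔ g ∈ o.F m := by
  rw [mem_F, symm_e_e]

theorem dv_O (o : DV L) : (s.dv o).O = s.vs o.O :=
  ValuationSubring.ext _ _ fun _ => s.mem_F

/-- The isomorphism of a subalgebra with its image. -/
def saEq (O : Subalgebra ℂ L) : O ≃+* s.sa O where
  toFun g := ⟨s.e g, s.e_mem_sa.2 g.2⟩
  invFun g := ⟨s.symm.e g, g.2⟩
  left_inv g := Subtype.ext (s.symm_e_e g)
  right_inv g := Subtype.ext (s.e_symm_e g)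
  map_mul' g h := Subtype.ext (map_mul s.e g.1 h.1)
  map_add' g h := Subtype.ext (map_add s.e g.1 h.1)

/-- The push-forward of a point. -/
def loc (x : Loc L) : Loc L' where
  O := s.sa x.O
  ev g := s.c (x.ev (s.symm.e g))
  ev_add f hf g hg := by rw [map_add, x.ev_add _ hf _ hg, map_add]
  ev_mul f hf g hg := by rw [map_mul, x.ev_mul _ hf _ hg, map_mul]
  ev_alg r := by rw [s.symm.map, x.ev_alg, c_symm_c]
  ev_out f hf := by rw [x.ev_out _ hf, map_zero]
  inv_mem f hf h := by
    rw [mem_sa, map_inv₀]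
    exact x.inv_mem _ hf fun h' => h (by rw [h', map_zero])
  noeth := by
    have := x.noeth
    exact isNoetherianRing_of_ringEquiv x.O (s.saEq x.O)

@[simp] theorem loc_O (x : Loc L) : (s.loc x).O = s.sa x.O := rfl
theorem loc_ev (x : Loc L) (g : L') : (s.loc x).ev g = s.c (x.ev (s.symm.e g)) := rfl

@[simp] theorem loc_e (x : Loc L) (g : L) : (s.loc x).ev (s.e g) = s.c (x.ev g) := by
  rw [loc_ev, symm_e_e]

/-! ### Vector fields, volume forms and coordinates -/

/-- The push-forward of a vector field. -/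
def vf (v : VF L) : VF L' :=
  Derivation.mk'
    { toFun := fun g => s.e (v (s.symm.e g))
      map_add' := fun g h => by rw [map_add, map_add, map_add]
      map_smul' := fun a g => by
        rw [s.symm.e_smul, v.map_smul, s.e_smul, c_symm_c, RingHom.id_apply] }
    fun g h => by
      simp only [LinearMap.coe_mk, AddHom.coe_mk, map_mul, Derivation.leibniz, smul_eq_mul,
        map_add, e_symm_e]

theorem vf_apply (v : VF L) (g : L') : s.vf v g = s.e (v (s.symm.e g)) := rfl

@[simp] theorem vf_e (v : VF L) (g : L) : s.vf v (s.e g) = s.e (v g) := by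
  rw [vf_apply, symm_e_e]

theorem vf_ext {v w : VF L'} (h : ∀ g, v (s.e g) = w (s.e g)) : v = w :=
  Derivation.ext (s.all.2 h)

@[simp] theorem vf_refl (v : VF L) : (refl L).vf v = v := rfl
theorem vf_trans (v : VF L) : (s.trans t).vf v = t.vf (s.vf v) := rfl

@[simp] theorem symm_vf_vf (v : VF L) : s.symm.vf (s.vf v) = v := by
  rw [← vf_trans, trans_symm, vf_refl]

@[simp] theorem vf_symm_vf (v : VF L') : s.vf (s.symm.vf v) = v := s.symm.symm_vf_vf v

/-- The push-forward of vector fields as an additive isomorphism. -/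
def vfE : VF L ≃+ VF L' where
  toFun := s.vf
  invFun := s.symm.vf
  left_inv := s.symm_vf_vf
  right_inv := s.vf_symm_vf
  map_add' v u := s.vf_ext fun g => by simp only [vf_e, Derivation.add_apply, map_add]

theorem vfE_apply (v : VF L) : s.vfE v = s.vf v := rfl
@[simp] theorem vf_zero : s.vf 0 = 0 := map_zero s.vfE
theorem vf_add (v u : VF L) : s.vf (v + u) = s.vf v + s.vf u := map_add s.vfE v u
theorem vf_sub (v u : VF L) : s.vf (v - u) = s.vf v - s.vf u := map_sub s.vfE v u
theorem vf_neg (v : VF L) : s.vf (-v) = -s.vf v := map_neg s.vfE v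
theorem vf_inj : Function.Injective s.vf := s.vfE.injective
theorem vf_surj : Function.Surjective s.vf := s.vfE.surjective

theorem vf_sum {ι : Type} (S : Finset ι) (v : ι → VF L) :
    s.vf (∑ i ∈ S, v i) = ∑ i ∈ S, s.vf (v i) := map_sum s.vfE v S

theorem vf_smul (g : L) (v : VF L) : s.vf (g • v) = s.e g • s.vf v :=
  s.vf_ext fun h => by simp only [vf_e, Derivation.smul_apply, smul_eq_mul, map_mul]

theorem vf_csmul (a : ℂ) (v : VF L) : s.vf (a • v) = s.c a • s.vf v :=
  s.vf_ext fun h => by simp only [vf_e, Derivation.smul_apply, e_smul]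

theorem vf_lie (v u : VF L) : s.vf ⁅v, u⁆ = ⁅s.vf v, s.vf u⁆ :=
  s.vf_ext fun h => by simp only [vf_e, Derivation.commutator_apply, map_sub]

/-- The push-forward of a volume form. -/
def dd (d : Dv L) : Dv L' where
  δ := AddMonoidHom.mk' (fun w => s.e (d.δ (s.symm.vf w))) fun v u => by
    rw [vf_add, map_add, map_add]
  smul g v := by
    simp only [AddMonoidHom.mk'_apply, vf_smul, d.smul, map_add, map_mul, e_symm_e, vf_e]
  lie v u := by
    obtain ⟨v, rfl⟩ := s.vf_surj v
    obtain ⟨u, rfl⟩ := s.vf_surj u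
    simp only [AddMonoidHom.mk'_apply, ← vf_lie, symm_vf_vf, d.lie, map_sub, vf_e]

theorem dd_δ (d : Dv L) (w : VF L') : (s.dd d).δ w = s.e (d.δ (s.symm.vf w)) := rfl

@[simp] theorem dd_vf (d : Dv L) (v : VF L) : (s.dd d).δ (s.vf v) = s.e (d.δ v) := by
  rw [dd_δ, symm_vf_vf]

/-- The push-forward of coordinates. -/
def co (C : Co L n) : Co L' n where
  z i := s.e (C.z i)
  D i := s.vf (C.D i)
  ne i := (map_ne_zero _).2 (C.ne i)
  dual i j := by
    rw [vf_e, C.dual]
    split_ifs <;> simp
  span v h := by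
    obtain ⟨v, rfl⟩ := s.vf_surj v
    rw [C.span v fun i => (map_eq_zero s.e).1 ((s.vf_e v _).symm.trans (h i)), vf_zero]

@[simp] theorem co_z (C : Co L n) (i : Fin n) : (s.co C).z i = s.e (C.z i) := rfl
@[simp] theorem co_D (C : Co L n) (i : Fin n) : (s.co C).D i = s.vf (C.D i) := rfl

/-! ### The laws of an action -/

@[simp] theorem dv_refl (o : DV L) : (refl L).dv o = o := rfl
@[simp] theorem sa_refl (O : Subalgebra ℂ L) : (refl L).sa O = O := rfl
@[simp] theorem fi_refl (K : IntermediateField ℂ L) : (refl L).fi K = K := rfl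
@[simp] theorem vs_refl (V : ValuationSubring L) : (refl L).vs V = V := rfl
@[simp] theorem loc_refl (x : Loc L) : (refl L).loc x = x := rfl
@[simp] theorem dd_refl (d : Dv L) : (refl L).dd d = d := dd_ext fun _ => rfl
@[simp] theorem co_refl (C : Co L n) : (refl L).co C = C := rfl
theorem dv_trans (o : DV L) : (s.trans t).dv o = t.dv (s.dv o) := rfl
theorem sa_trans (O : Subalgebra ℂ L) : (s.trans t).sa O = t.sa (s.sa O) := rfl
theorem fi_trans (K : IntermediateField ℂ L) : (s.trans t).fi K = t.fi (s.fi K) := rfl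
theorem vs_trans (V : ValuationSubring L) : (s.trans t).vs V = t.vs (s.vs V) := rfl
theorem loc_trans (x : Loc L) : (s.trans t).loc x = t.loc (s.loc x) := rfl
theorem dd_trans (d : Dv L) : (s.trans t).dd d = t.dd (s.dd d) := dd_ext fun _ => rfl
theorem co_trans (C : Co L n) : (s.trans t).co C = t.co (s.co C) := rfl

@[simp] theorem symm_dv_dv (o : DV L) : s.symm.dv (s.dv o) = o := by
  rw [← dv_trans, trans_symm, dv_refl]

@[simp] theorem symm_sa_sa (O : Subalgebra ℂ L) : s.symm.sa (s.sa O) = O := by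
  rw [← sa_trans, trans_symm, sa_refl]

@[simp] theorem symm_fi_fi (K : IntermediateField ℂ L) : s.symm.fi (s.fi K) = K := by
  rw [← fi_trans, trans_symm, fi_refl]

@[simp] theorem symm_vs_vs (V : ValuationSubring L) : s.symm.vs (s.vs V) = V := by
  rw [← vs_trans, trans_symm, vs_refl]

@[simp] theorem symm_loc_loc (x : Loc L) : s.symm.loc (s.loc x) = x := by
  rw [← loc_trans, trans_symm, loc_refl]

@[simp] theorem symm_dd_dd (d : Dv L) : s.symm.dd (s.dd d) = d := by
  rw [← dd_trans, trans_symm, dd_refl]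

@[simp] theorem symm_co_co (C : Co L n) : s.symm.co (s.co C) = C := by
  rw [← co_trans, trans_symm, co_refl]

@[simp] theorem dv_symm_dv (o : DV L') : s.dv (s.symm.dv o) = o := s.symm.symm_dv_dv o
@[simp] theorem sa_symm_sa (O : Subalgebra ℂ L') : s.sa (s.symm.sa O) = O := s.symm.symm_sa_sa O

@[simp] theorem fi_symm_fi (K : IntermediateField ℂ L') : s.fi (s.symm.fi K) = K :=
  s.symm.symm_fi_fi K

@[simp] theorem vs_symm_vs (V : ValuationSubring L') : s.vs (s.symm.vs V) = V :=
  s.symm.symm_vs_vs V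

@[simp] theorem loc_symm_loc (x : Loc L') : s.loc (s.symm.loc x) = x := s.symm.symm_loc_loc x
@[simp] theorem dd_symm_dd (d : Dv L') : s.dd (s.symm.dd d) = d := s.symm.symm_dd_dd d
@[simp] theorem co_symm_co (C : Co L' n) : s.co (s.symm.co C) = C := s.symm.symm_co_co C

theorem dv_inj : Function.Injective s.dv := Function.LeftInverse.injective s.symm_dv_dv
theorem sa_inj : Function.Injective s.sa := Function.LeftInverse.injective s.symm_sa_sa
theorem fi_inj : Function.Injective s.fi := Function.LeftInverse.injective s.symm_fi_fi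
theorem vs_inj : Function.Injective s.vs := Function.LeftInverse.injective s.symm_vs_vs
theorem loc_inj : Function.Injective s.loc := Function.LeftInverse.injective s.symm_loc_loc
theorem dd_inj : Function.Injective s.dd := Function.LeftInverse.injective s.symm_dd_dd
theorem dv_surj : Function.Surjective s.dv := Function.RightInverse.surjective s.dv_symm_dv
theorem sa_surj : Function.Surjective s.sa := Function.RightInverse.surjective s.sa_symm_sa
theorem fi_surj : Function.Surjective s.fi := Function.RightInverse.surjective s.fi_symm_fi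
theorem vs_surj : Function.Surjective s.vs := Function.RightInverse.surjective s.vs_symm_vs
theorem loc_surj : Function.Surjective s.loc := Function.RightInverse.surjective s.loc_symm_loc
theorem dd_surj : Function.Surjective s.dd := Function.RightInverse.surjective s.dd_symm_dd

theorem co_surj : Function.Surjective (s.co : Co L n → Co L' n) :=
  Function.RightInverse.surjective s.co_symm_co

end SI

/-! ### Places -/

/-- The isomorphisms `s` of the fields and `t` of the residue fields carry `P` to `P'`. -/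
structure Cp (s : SI L L') (t : SI k k') (P : Pl L k) (P' : Pl L' k') : Prop where
  o : P'.o = s.dv P.o
  π : ∀ g ∈ P.o.F 0, P'.π (s.e g) = t.e (P.π g)

namespace Cp

variable {s : SI L L'} {t : SI k k'} {P : Pl L k} {P' : Pl L' k'}

theorem c (h : Cp s t P P') : t.c = s.c := RingEquiv.ext fun a => (algebraMap ℂ k').injective <| by
  rw [← t.map, ← (P.cst a).2, ← h.π _ (P.cst a).1, s.map, (P'.cst _).2]

theorem mem (h : Cp s t P P') {m : ℤ} {g : L} : s.e g ∈ P'.o.F m ↔ g ∈ P.o.F m := by
  rw [h.o, s.e_mem_F]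

theorem refl (P : Pl L k) : Cp (SI.refl L) (SI.refl k) P P := ⟨rfl, fun _ _ => rfl⟩

theorem symm (h : Cp s t P P') : Cp s.symm t.symm P' P where
  o := by rw [h.o, SI.symm_dv_dv]
  π := s.all.2 fun g hg => by rw [h.π g (h.mem.1 hg), SI.symm_e_e, SI.symm_e_e]

theorem trans {s' : SI L' L''} {t' : SI k' k''} {P'' : Pl L'' k''} (h : Cp s t P P')
    (h' : Cp s' t' P' P'') : Cp (s.trans s') (t.trans t') P P'' where
  o := by rw [h'.o, h.o, SI.dv_trans]
  π g hg := by rw [SI.trans_e, h'.π _ (h.mem.2 hg), h.π g hg, SI.trans_e]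

theorem uniq {t' : SI k k'} (h : Cp s t P P') (h' : Cp s t' P P') : t = t' :=
  SI.ext' fun y => by
    obtain ⟨g, hg, rfl⟩ := P.surj y
    rw [← h.π g hg, h'.π g hg]

end Cp

section Res

variable (P : Pl L k)

/-- The residue map on the valuation ring. -/
def plHom : P.o.O →+* k where
  toFun g := P.π g
  map_one' := by simpa using (P.cst 1).2
  map_zero' := by simpa using (P.cst 0).2
  map_mul' g h := P.mul _ g.2 _ h.2
  map_add' g h := P.add _ g.2 _ h.2

theorem plHom_surj : Function.Surjective (plHom P) := fun y => by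
  obtain ⟨g, hg, rfl⟩ := P.surj y
  exact ⟨⟨g, hg⟩, rfl⟩

/-- An isomorphism that matches the valuations induces an isomorphism of the residue fields. -/
theorem exists_cp (s : SI L L') (P' : Pl L' k') (h : P'.o = s.dv P.o) : ∃ t, Cp s t P P' := by
  have hm : ∀ {m g}, s.e g ∈ P'.o.F m ↔ g ∈ P.o.F m := by
    intro m g
    rw [h, s.e_mem_F]
  let r : P.o.O ≃+* P'.o.O :=
    { toFun := fun g => ⟨s.e g, hm.2 g.2⟩
      invFun := fun g => ⟨s.symm.e g, hm.1 (by rw [s.e_symm_e]; exact g.2)⟩
      left_inv := fun g => Subtype.ext (s.symm_e_e g)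
      right_inv := fun g => Subtype.ext (s.e_symm_e g)
      map_mul' := fun g h => Subtype.ext (map_mul s.e g.1 h.1)
      map_add' := fun g h => Subtype.ext (map_add s.e g.1 h.1) }
  let φ : P.o.O →+* k' := (plHom P').comp r.toRingHom
  have hφ : Function.Surjective φ := (plHom_surj P').comp r.surjective
  have hk : RingHom.ker (plHom P) = RingHom.ker φ := Ideal.ext fun g =>
    (P.ker g g.2).trans (hm.symm.trans (P'.ker _ (hm.2 g.2)).symm)
  let e : k ≃+* k' := (RingHom.quotientKerEquivOfSurjective (plHom_surj P)).symm.trans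
    ((Ideal.quotEquivOfEq hk).trans (RingHom.quotientKerEquivOfSurjective hφ))
  have he : ∀ g : P.o.O, e (plHom P g) = φ g := fun g => by
    have : (RingHom.quotientKerEquivOfSurjective (plHom_surj P)).symm (plHom P g) =
        Ideal.Quotient.mk _ g := (RingEquiv.symm_apply_eq _).2 rfl
    simp only [e, RingEquiv.trans_apply, this]
    rfl
  refine ⟨⟨s.c, e, fun a => ?_⟩, h, fun g hg => (he ⟨g, hg⟩).symm⟩
  rw [← (P.cst a).2]
  refine (he ⟨_, (P.cst a).1⟩).trans ?_
  change P'.π (s.e (algebraMap ℂ L a)) = _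
  rw [s.map, (P'.cst _).2]

/-- The induced isomorphism of the residue fields. -/
def SI.res (s : SI L L') (P : Pl L k) (P' : Pl L' k') (h : P'.o = s.dv P.o) : SI k k' :=
  (exists_cp P s P' h).choose

theorem SI.res_cp (s : SI L L') (P : Pl L k) (P' : Pl L' k') (h : P'.o = s.dv P.o) :
    Cp s (s.res P P' h) P P' := (exists_cp P s P' h).choose_spec

/-- The induced isomorphism of the residue fields of valuations. -/
def SI.kf (s : SI L L') (o : DV L) (o' : DV L') (h : o' = s.dv o) : SI o.kf o'.kf :=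
  s.res o.pl o'.pl h

theorem SI.kf_cp (s : SI L L') (o : DV L) (o' : DV L') (h : o' = s.dv o) :
    Cp s (s.kf o o' h) o.pl o'.pl := s.res_cp _ _ h

end Res

/-! ### Actions of groups -/

/-- An action of the group `G` on the field `L` over the action `ρ` on the constants. -/
structure Act (G : Type) [Group G] (ρ : G → ℂ ≃+* ℂ) (L : Type) [Field L] [Algebra ℂ L] where
  act : G → SI L L
  c : ∀ σ, (act σ).c = ρ σ
  one : act 1 = SI.refl L
  mul : ∀ σ τ, act (σ * τ) = (act τ).trans (act σ)

theorem Act.inv {G : Type} [Group G] {ρ : G → ℂ ≃+* ℂ} (A : Act G ρ L) (σ : G) :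
    A.act σ⁻¹ = (A.act σ).symm := SI.ext' fun g => by
  have := congrArg (fun s : SI L L => s.e g) (A.mul σ σ⁻¹)
  simp only [mul_inv_cancel, A.one, SI.refl_e, SI.trans_e] at this
  rw [SI.symm_e, eq_comm, RingEquiv.symm_apply_eq]
  exact this

/-- The action on the residue field of an invariant place. -/
def Act.res {G : Type} [Group G] {ρ : G → ℂ ≃+* ℂ} (A : Act G ρ L) (P : Pl L k)
    (h : ∀ σ, P.o = (A.act σ).dv P.o) : Act G ρ k where
  act σ := (A.act σ).res P P (h σ)
  c σ := ((A.act σ).res_cp P P (h σ)).c.trans (A.c σ)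
  one := by
    have := (A.act 1).res_cp P P (h 1)
    generalize (A.act 1).res P P (h 1) = t at this
    rw [A.one] at this
    exact this.uniq (Cp.refl P)
  mul σ τ := by
    have := (A.act (σ * τ)).res_cp P P (h _)
    generalize (A.act (σ * τ)).res P P (h _) = t at this
    rw [A.mul] at this
    exact this.uniq (((A.act τ).res_cp P P (h τ)).trans ((A.act σ).res_cp P P (h σ)))

theorem Act.res_cp {G : Type} [Group G] {ρ : G → ℂ ≃+* ℂ} (A : Act G ρ L) (P : Pl L k)
    (h : ∀ σ, P.o = (A.act σ).dv P.o) (σ : G) : Cp (A.act σ) ((A.res P h).act σ) P P :=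
  (A.act σ).res_cp P P (h σ)

end

end Pool.Agent.MP_5d9b3c_ag.P3T
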