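import Pool.Agent.MP_5d9b3c_ag.P3T.Res
import Pool.Agent.MP_5d9b3c_ag.P3.Gal

/-!
The action on the coefficients of rational functions.
-/

namespace Pool.Agent.MP_5d9b3c_ag.P3T

open Pool.Agent.MP_ee8c61_ag M3 M3RESID Set MvPolynomial P3
open M3B1 (pd)

noncomputable section

variable {N : ℕ}

/-- The action of an automorphism of the constants on rational functions. -/
def kk (N : ℕ) (c : ℂ ≃+* ℂ) : SI (KK N) (KK N) where
  c := c
  e := IsFractionRing.ringEquivOfRingEquiv (A := Po N) (B := Po N) (mapEquiv (Fin N) c)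
  map a := by
    rw [IsScalarTower.algebraMap_apply ℂ (Po N) (KK N),
      IsFractionRing.ringEquivOfRingEquiv_algebraMap,
      IsScalarTower.algebraMap_apply ℂ (Po N) (KK N)]
    exact congrArg _ (map_C _ a)

@[simp] theorem kk_c (c : ℂ ≃+* ℂ) : (kk N c).c = c := rfl

theorem kk_ip (c : ℂ ≃+* ℂ) (p : Po N) : (kk N c).e (ip N p) = ip N (map (c : ℂ →+* ℂ) p) :=
  IsFractionRing.ringEquivOfRingEquiv_algebraMap (mapEquiv (Fin N) c) p

@[simp] theorem kk_xx (c : ℂ ≃+* ℂ) (l : Fin N) : (kk N c).e (xx N l) = xx N l := by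
  rw [xx, kk_ip, map_X]

namespace SI

variable {s : SI (KK N) (KK N)} (hs : ∀ l, s.e (xx N l) = xx N l)

include hs

theorem e_ip (p : Po N) : s.e (ip N p) = ip N (MvPolynomial.map (s.c : ℂ →+* ℂ) p) := by
  induction p using MvPolynomial.induction_on with
  | C a => exact ((congrArg s.e ((ip N).commutes a)).trans (s.map a)).trans (by
      rw [map_C]
      exact ((ip N).commutes _).symm)
  | add p q hp hq => simp only [map_add, hp, hq]
  | mul_X p i hp =>
    simp only [map_mul, hp, map_X]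
    exact congrArg _ (hs i)

/-- An automorphism that fixes the coordinates is the action on the coefficients. -/
theorem eq_kk : s = kk N s.c := ext' fun g => by
  obtain ⟨p, q, _, rfl⟩ := IsFractionRing.div_surjective (A := Po N) g
  have h : ∀ p : Po N, s.e (algebraMap _ _ p) = (kk N s.c).e (algebraMap _ _ p) := fun p =>
    (e_ip hs p).trans (kk_ip _ p).symm
  rw [map_div₀, map_div₀, h, h]

theorem symm_xx (l : Fin N) : s.symm.e (xx N l) = xx N l := by
  rw [← hs l, symm_e_e, hs]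

theorem vf_pd (l : Fin N) : s.vf (pd N l) = pd N l :=
  M3B1.der_ext fun i => by
    have := s.vf_e (pd N l) (xx N i)
    rw [hs] at this
    refine this.trans ?_
    rw [xx, M3B1.pd_X]
    split_ifs <;> simp

theorem e_pd (l : Fin N) (g : KK N) : s.e (pd N l g) = pd N l (s.e g) := by
  rw [← vf_e, vf_pd hs]

theorem co_co : s.co (M3.co N) = M3.co N := co_ext hs (vf_pd hs)

theorem dd_dvf (f : Po N) (la : ℚ) :
    s.dd (dvf f la) = dvf (MvPolynomial.map (s.c : ℂ →+* ℂ) f) la := by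
  rw [dvf, dd_tw, ← co_dv, co_co hs, e_ip hs, map_neg, map_ratCast, dvf]

theorem ov {V : Vl N} : Ov (s.vs V) ↔ Ov V := by
  refine ⟨fun h p => s.e_mem_vs.1 (e_ip hs p ▸ h _), fun h p => ?_⟩
  rw [mem_vs, e_ip (symm_xx hs)]
  exact h _

theorem mem_ip {g : KK N} : s.e g ∈ (ip N).range ↔ g ∈ (ip N).range := by
  refine ⟨fun ⟨p, hp⟩ => ?_, fun ⟨p, hp⟩ => ⟨_, (e_ip hs p).symm.trans (congrArg s.e hp)⟩⟩
  exact ⟨_, (e_ip (symm_xx hs) p).symm.trans ((congrArg s.symm.e hp).trans (s.symm_e_e g))⟩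

end SI

@[simp] theorem kk_refl : kk N (RingEquiv.refl ℂ) = SI.refl (KK N) :=
  (SI.eq_kk (s := SI.refl (KK N)) fun _ => rfl).symm

theorem kk_trans (c c' : ℂ ≃+* ℂ) : kk N (c.trans c') = (kk N c).trans (kk N c') :=
  (SI.eq_kk (s := (kk N c).trans (kk N c')) fun l => by simp).symm

/-- The Galois group acts on the coefficients of rational functions. -/
def gaK (F : Type) [Field F] [Algebra F ℂ] (N : ℕ) : GA F (KK N) where
  ρ := MonoidHom.mk' (fun σ => (kk N σ.toRingEquiv).e) fun σ τ =>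
    congrArg SI.e (kk_trans τ.toRingEquiv σ.toRingEquiv)
  semi σ c := (kk N σ.toRingEquiv).map c
  cont g := by
    classical
    obtain ⟨p, q, _, rfl⟩ := IsFractionRing.div_surjective (A := Po N) g
    refine ⟨p.coeffs ∪ q.coeffs, fun σ hσ => ?_⟩
    have h : ∀ r : Po N, r.coeffs ⊆ p.coeffs ∪ q.coeffs →
        (kk N σ.toRingEquiv).e (algebraMap _ _ r) = algebraMap _ _ r := fun r hr => by
      refine (kk_ip _ r).trans (congrArg (ip N) (MvPolynomial.ext _ _ fun m => ?_))
      rw [coeff_map]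
      by_cases h0 : coeff m r = 0
      · rw [h0, map_zero]
      · exact hσ _ (hr (coeff_mem_coeffs m h0))
    rw [MonoidHom.mk'_apply, map_div₀, h p Finset.subset_union_left,
      h q Finset.subset_union_right]

section

variable {F : Type} [Field F] [Algebra F ℂ]

theorem gaK_si (σ : Gm F) : (gaK F N).si σ = kk N σ.toRingEquiv := rfl

theorem gaK_xx (σ : Gm F) (l : Fin N) : ((gaK F N).si σ).e (xx N l) = xx N l := kk_xx _ l

theorem gaK_ip (σ : Gm F) (p : Po N) : (gaK F N).ρ σ (ip N p) = ip N (map (σ : ℂ →+* ℂ) p) :=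
  kk_ip _ p

theorem map_map_fix (σ : Gm F) (p : MvPolynomial (Fin N) F) :
    map (σ : ℂ →+* ℂ) (map (algebraMap F ℂ) p) = map (algebraMap F ℂ) p := by
  rw [map_map]
  exact congrArg (fun φ => map φ p) (RingHom.ext σ.commutes)

theorem ip_fix (p : MvPolynomial (Fin N) F) : ip N (map (algebraMap F ℂ) p) ∈ (gaK F N).fix :=
  fun σ => by rw [gaK_ip, map_map_fix]

theorem xx_fix (l : Fin N) : xx N l ∈ (gaK F N).fix := fun σ => gaK_xx σ l

theorem invV_pd (l : Fin N) : (gaK F N).InvV (pd N l) := fun σ => SI.e_pd (gaK_xx σ) l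

theorem invD_dvf {f : Po N} (hf : ∀ σ : Gm F, map (σ : ℂ →+* ℂ) f = f) (la : ℚ) :
    (gaK F N).InvD (dvf f la) :=
  GA.invD_iff.2 fun σ => (SI.dd_dvf (gaK_xx σ) f la).trans (congrArg (dvf · la) (hf σ))

end

end

end Pool.Agent.MP_5d9b3c_ag.P3T
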