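import Pool.Agent.MP_5d9b3c_ag.P3T.Res
import Pool.Agent.MP_ee8c61_ag.M3BK.Defs

/-!
Transport of constructible sets, regular points, flags and types of curves.
-/

namespace Pool.Agent.MP_5d9b3c_ag.P3T

open Pool.Agent.MP_ee8c61_ag M3 M3RESID M3BK Set
open Pool.Agent.MP_96693b_ag.RS (Loc LocOf)

variable {L L' : Type} [Field L] [Algebra ℂ L] [Field L'] [Algebra ℂ L'] {n : ℕ}

theorem con_map (c : ℂ →+* ℂ) (c' : ℂ ≃+* ℂ) {ι : Type} {S : Set (ι → ℂ)}
    (hc : ∀ a, c (c' a) = a) (h : H36.Con S) : H36.Con {x : ι → ℂ | (fun i => c (x i)) ∈ S} := by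
  induction h with
  | zero p =>
    have : {x : ι → ℂ | (fun i => c (x i)) ∈ {x : ι → ℂ | MvPolynomial.eval x p = 0}} =
        {x | MvPolynomial.eval x (MvPolynomial.map c'.toRingHom p) = 0} := Set.ext fun x => by
      have h1 : MvPolynomial.eval (fun i => c (x i)) p =
          c (MvPolynomial.eval x (MvPolynomial.map c'.toRingHom p)) := by
        induction p using MvPolynomial.induction_on with
        | C a => simp [hc]
        | add p q hp hq => simp only [map_add, hp, hq]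
        | mul_X p i hp => simp only [map_mul, hp, MvPolynomial.eval_X, MvPolynomial.map_X]
      simp only [mem_ofPred_eq, h1, map_eq_zero]
    rw [this]
    exact .zero _
  | compl _ ih => exact ih.compl
  | union _ _ ih ih' => exact ih.union ih'

namespace SI

variable (s : SI L L') {x : Loc L} {C : Co L n} {d : Dv L}

theorem alll {p : Loc L' → Prop} : (∀ x, p x) ↔ ∀ x, p (s.loc x) := s.loc_surj.forall
theorem exl {p : Loc L' → Prop} : (∃ x, p x) ↔ ∃ x, p (s.loc x) := s.loc_surj.exists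
theorem alld {p : DV L' → Prop} : (∀ x, p x) ↔ ∀ x, p (s.dv x) := s.dv_surj.forall
theorem exd {p : DV L' → Prop} : (∃ x, p x) ↔ ∃ x, p (s.dv x) := s.dv_surj.exists

theorem allV {p : ValuationSubring L' → Prop} : (∀ x, p x) ↔ ∀ x, p (s.vs x) := s.vs_surj.forall

theorem exV {p : ValuationSubring L' → Prop} : (∃ x, p x) ↔ ∃ x, p (s.vs x) := s.vs_surj.exists

theorem mem_loc {W : Set (Loc L)} : s.loc x ∈ s.loc '' W ↔ x ∈ W := s.loc_inj.mem_set_image

theorem af {κ : Type} (y : κ → L) : s.loc x ∈ Af (fun i => s.e (y i)) ↔ x ∈ Af y := by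
  change LocOf _ _ ↔ LocOf _ _
  rw [← s.locOf_iff, sa_adjoin, ← range_comp]
  rfl

theorem vl_loc {κ : Type} (y : κ → L) (x : Loc L) :
    vl (fun i => s.e (y i)) (s.loc x) = fun i => s.c (vl y x i) := funext fun _ => s.loc_e _ _

theorem conP {W : Set (Loc L)} (h : ConP W) : ConP (s.loc '' W) := by
  induction h with
  | pc κ y S hS =>
    have h1 : s.loc '' (Af y ∩ vl y ⁻¹' S) = Af (fun i => s.e (y i)) ∩
        vl (fun i => s.e (y i)) ⁻¹' {x | (fun i => s.symm.c.toRingHom (x i)) ∈ S} := by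
      refine Set.ext (s.alll.2 fun x => ?_)
      rw [mem_loc, mem_inter_iff, mem_inter_iff, af, mem_preimage, mem_preimage, vl_loc]
      simp
    rw [h1]
    exact ConP.pc κ _ _ (con_map s.symm.c.toRingHom s.c s.symm_c_c hS)
  | union _ _ ih ih' => exact image_union _ _ _ ▸ ih.union ih'

@[simp] theorem le {V : ValuationSubring L} : Le (s.loc x) (s.vs V) ↔ Le x V :=
  s.all.trans (by simp only [loc_O, e_mem_sa, e_mem_vs, Le])

@[simp] theorem dm {V : ValuationSubring L} : Dm (s.loc x) (s.vs V) ↔ Dm x V :=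
  and_congr s.le (s.all.trans (by simp only [loc_O, e_mem_sa, loc_e, un, map_eq_zero]))

@[simp] theorem nrm {G : DV L} : Nrm (s.dv G) ↔ Nrm G := s.ex.trans (by simp only [dv_e, Nrm])

@[simp] theorem dvs {G : DV L} : Dvs (s.dv G) ↔ Dvs G :=
  s.co_surj.exists.trans (by simp only [adp_iff, Dvs])

@[simp] theorem thr {G : DV L} : Thr (s.loc x) (s.dv G) ↔ Thr x G := by
  simp only [Thr, nrm, dv_O, le, dm]

theorem rg (h : Rg C x) : Rg (s.co C) (s.loc x) where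
  st := s.st h.st
  ev i := by rw [co_z, loc_e, h.ev, map_zero]
  mx := s.all.2 fun g hg h0 => s.mx (h.mx g (s.e_mem_sa.1 hg) (by simpa using h0))
  fr := s.all.2 fun g => by
    obtain ⟨t, ht, h0, h1⟩ := h.fr g
    exact ⟨s.e t, s.e_mem_sa.2 ht, s.e_ne.2 h0, by rwa [← map_mul, loc_O, e_mem_sa]⟩

@[simp] theorem rg_iff : Rg (s.co C) (s.loc x) ↔ Rg C x :=
  ⟨fun h => by simpa using s.symm.rg h, s.rg⟩

theorem gp {ψ : L} {a a' : Fin n → ℂ} {m : Fin n → ℤ} (h : GP d ψ C x a m)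
    (ha : ∀ i, a' i = s.c (a i)) : GP (s.dd d) (s.e ψ) (s.co C) (s.loc x) a' m where
  rg := s.rg h.rg
  ad := s.ad h.ad ha
  mn := by
    rw [co_mon, ← map_div₀, loc_e, c_ne]
    exact h.mn

@[simp] theorem gd {v : VF L} {ψ : L} : Gd (s.dd d) (s.vf v) (s.e ψ) ↔ Gd d v ψ :=
  and_congr s.e_ne (s.exv.trans (by simp only [vf_e, dd_vf, ← map_div₀, e_inj]))

theorem p1 {σ : L} {θ : VF L} (h : P1 σ θ) : P1 (s.e σ) (s.vf θ) where
  tr := s.transc.2 h.tr
  gen := by rw [← image_singleton, adjoin_top, h.gen]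
  eul := by rw [vf_e, h.eul]

@[simp] theorem p1_iff {σ : L} {θ : VF L} : P1 (s.e σ) (s.vf θ) ↔ P1 σ θ :=
  ⟨fun h => by simpa using s.symm.p1 h, s.p1⟩

theorem w1_c (a : Fin n → ℂ) : w1 (fun i => s.c (a i)) = s.c (w1 a) := by
  simp only [w1, map_prod, map_eq_zero]
  refine Finset.prod_congr rfl fun i _ => ?_
  split_ifs <;> simp

end SI

namespace Cp

variable {s : SI L L'} {G : DV L} {G' : DV L'} {t : SI G.kf G'.kf} (h : Cp s t G.pl G'.pl)

include h

theorem o_pl : G' = s.dv G := h.o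

theorem fl {C : Co L 2} {x : Loc L} {i : Fin 2} {U : DV G.kf} (hf : Fl C x i G U) :
    Fl (s.co C) (s.loc x) i G' (t.dv U) where
  dat := h.o_pl ▸ s.dat hf.dat
  le := s.all.2 fun g hg => by
    rw [h.π_pl, t.e_mem_F]
    exact hf.le g (s.e_mem_sa.1 hg)
  un := by rw [s.co_z, h.π_pl, t.dv_e, hf.un]

theorem ty {d : Dv L} {v : VF L} {b : ℂ} {X₀ : Set L} (ht : TY d v b X₀ G) :
    TY (s.dd d) (s.vf v) (s.c b) (s.e '' X₀) G' := by
  obtain ⟨σ, θ, μ, h0, h1, h2, h3, h4⟩ := ht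
  refine ⟨t.e σ, t.vf θ, t.c μ, t.c_ne.2 h0, t.p1 h1, t.dd_surj.forall.2 fun e he => ?_,
    h3.imp (fun h3 => ?_) fun h3 => t.allv.2 fun w hw => ?_, ?_⟩
  · rw [t.dd_vf, h2 e (h.rsD_pl_iff.1 he), t.map]
  · rw [← map_pow, h3, map_one]
  · rw [h3 w (h.res_iff.1 hw), t.vf_smul, t.map, map_div₀, h.c]
  · rintro _ ⟨c, hc, rfl⟩
    rw [h.π_pl, t.mem_range]
    exact h4 c hc

end Cp

theorem SI.ty (s : SI L L') {G : DV L} {d : Dv L} {v : VF L} {b : ℂ} {X₀ : Set L}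
    (ht : TY d v b X₀ G) : TY (s.dd d) (s.vf v) (s.c b) (s.e '' X₀) (s.dv G) :=
  (s.kf_cp G _ rfl).ty ht

/-- The conjugate of a surface. -/
def SI.sf (s : SI L L') {X₀ : Set L} {X₁ : Set L'} (hX : X₁ = s.e '' X₀) (S : Sf L X₀) :
    Sf L' X₁ where
  X := s.loc '' S.X
  C x := s.co (S.C (s.symm.loc x))
  con := s.conP S.con
  rg := s.alll.2 fun x hx => by
    rw [s.symm_loc_loc]
    exact s.rg (S.rg x (s.mem_loc.1 hx))
  base := s.alll.2 fun x hx => by
    subst hX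
    rintro _ ⟨c, hc, rfl⟩
    exact s.e_mem_sa.2 (S.base x (s.mem_loc.1 hx) c hc)
  prop := s.allV.2 fun V h1 h2 => by
    obtain ⟨x, hx, h⟩ := S.prop V (fun c => s.e_mem_vs.1 (s.map c ▸ h1 _))
      fun c hc => s.e_mem_vs.1 (h2 _ (hX ▸ mem_image_of_mem _ hc))
    exact ⟨_, s.mem_loc.2 hx, s.le.2 h⟩
  sep := s.allV.2 fun V => s.alll.2 fun x hx => s.alll.2 fun x' hx' h1 h2 =>
    congrArg s.loc (S.sep V x (s.mem_loc.1 hx) x' (s.mem_loc.1 hx') (s.dm.1 h1) (s.le.1 h2))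

end Pool.Agent.MP_5d9b3c_ag.P3T
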